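import Pool.Agent.Helper24.IA.St

/-!
# Project IA (MP_953b28_co), part A: module EMB, greedy choice of distinct labels
-/

set_option autoImplicit false

namespace Pool.Agent.Helper95.IA24

open Finset
open Pool.Agent.Helper93.IA Pool.Agent.Helper24.IA

private theorem emb_aux (V : Type) [Fintype V] [DecidableEq V] (n : ℕ) (F : Finset (Fin n)) (D : ℕ)
    (rk : V → ℕ) (Fb : V → (V → Fin n) → Finset (Fin n)) (h0 : 0 < n) (h1 : ∀ v g, (Fb v g).card ≤ D)
    (h2 : ∀ v g g', (∀ u, rk u < rk v → g u = g' u) → Fb v g = Fb v g')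
    (h3 : D + F.card + Fintype.card V ≤ n) :
    ∀ (k : ℕ) (S : Finset V), S.card = k → (∀ v ∈ S, ∀ u, rk u < rk v → u ∈ S) →
      ∃ g : V → Fin n, (∀ v ∈ S, ∀ w ∈ S, g v = g w → v = w) ∧ ∀ v ∈ S, g v ∉ F ∧ g v ∉ Fb v g := by
  intro k
  induction k with
  | zero =>
    intro S hS _
    rw [Finset.card_eq_zero] at hS
    subst hS
    exact ⟨fun _ => ⟨0, h0⟩, by simp, by simp⟩
  | succ k ih =>
    intro S hS hcl
    have hne : S.Nonempty := by
      rw [← Finset.card_pos, hS]
      omega
    obtain ⟨v, hv, hmax⟩ := Finset.exists_max_image S rk hne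
    have hcard : (S.erase v).card = k := by
      rw [Finset.card_erase_of_mem hv, hS]
      rfl
    obtain ⟨g, hinj, hg⟩ := ih (S.erase v) hcard (by
      intro w hw u hu
      have hw' := Finset.mem_erase.1 hw
      refine Finset.mem_erase.2 ⟨?_, hcl w hw'.2 u hu⟩
      rintro rfl
      have := hmax w hw'.2
      omega)
    have hlt : (F ∪ Fb v g ∪ (S.erase v).image g).card < (univ : Finset (Fin n)).card := by
      have e1 := Finset.card_union_le (F ∪ Fb v g) ((S.erase v).image g)
      have e2 := Finset.card_union_le F (Fb v g)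
      have e3 : ((S.erase v).image g).card ≤ k := by
        rw [← hcard]
        exact Finset.card_image_le
      have e4 := h1 v g
      have e5 : S.card ≤ Fintype.card V := Finset.card_le_univ S
      rw [Finset.card_univ, Fintype.card_fin]
      omega
    obtain ⟨x, _, hx⟩ := Finset.exists_mem_notMem_of_card_lt_card hlt
    simp only [Finset.mem_union, not_or] at hx
    obtain ⟨⟨hx1, hx2⟩, hx3⟩ := hx
    have hfb : ∀ w ∈ S, Fb w (Function.update g v x) = Fb w g := by
      intro w hw
      refine h2 w _ _ (fun u hu => ?_)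
      have : u ≠ v := by
        rintro rfl
        have := hmax w hw
        omega
      exact Function.update_of_ne this _ _
    refine ⟨Function.update g v x, ?_, ?_⟩
    · intro a ha b hb hab
      by_cases hav : a = v
      · by_cases hbv : b = v
        · rw [hav, hbv]
        · exfalso
          rw [hav, Function.update_self, Function.update_of_ne hbv] at hab
          exact hx3 (Finset.mem_image.2 ⟨b, Finset.mem_erase.2 ⟨hbv, hb⟩, hab.symm⟩)
      · by_cases hbv : b = v
        · exfalso
          rw [hbv, Function.update_self, Function.update_of_ne hav] at hab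
          exact hx3 (Finset.mem_image.2 ⟨a, Finset.mem_erase.2 ⟨hav, ha⟩, hab⟩)
        · rw [Function.update_of_ne hav, Function.update_of_ne hbv] at hab
          exact hinj a (Finset.mem_erase.2 ⟨hav, ha⟩) b (Finset.mem_erase.2 ⟨hbv, hb⟩) hab
    · intro w hw
      rw [hfb w hw]
      by_cases hwv : w = v
      · subst hwv
        rw [Function.update_self]
        exact ⟨hx1, hx2⟩
      · rw [Function.update_of_ne hwv]
        exact hg w (Finset.mem_erase.2 ⟨hwv, hw⟩)

theorem hEMB : StEMB := by
  intro V _ _ n F D rk Fb h0 h1 h2 h3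
  obtain ⟨g, hg1, hg2⟩ := emb_aux V n F D rk Fb h0 h1 h2 h3 _ univ rfl (fun _ _ u _ => Finset.mem_univ u)
  exact ⟨g, fun a b hab => hg1 a (Finset.mem_univ a) b (Finset.mem_univ b) hab,
    fun v => hg2 v (Finset.mem_univ v)⟩

end Pool.Agent.Helper95.IA24
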